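import Pool.Agent.Helper27_R3B.NRM

/-!
# Squad R3B (MP_be01ff_an), row NRV: the norm of the gradient of `f(|x|)/|x|`
-/

set_option autoImplicit false

namespace Pool.Agent.R3B.H95

open Pool.Agent.R3B Pool.Agent.BE01F
open Set MeasureTheory
open scoped ENNReal

theorem nrv (hB : BinStmt) : NrvStmt := by
  intro ℓ f g hℓ hg hf
  -- continuous extension of g
  have hGc : Continuous (fun r : ℝ => g (max 0 (min ℓ r))) := by
    refine hg.comp_continuous (by fun_prop) (fun r => ⟨le_max_left _ _, ?_⟩)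
    exact max_le hℓ.le (min_le_left _ _)
  have hGe : ∀ r, 0 ≤ r → r ≤ ℓ → g (max 0 (min ℓ r)) = g r := by
    intro r h0 h1
    rw [min_eq_right h1, max_eq_right h0]
  generalize hGdef : (fun r : ℝ => g (max 0 (min ℓ r))) = G at hGc
  have hGe' : ∀ r, 0 ≤ r → r ≤ ℓ → G r = g r := by
    intro r h0 h1
    rw [← hGdef]
    exact hGe r h0 h1
  -- its primitive
  have hPd : ∀ r : ℝ, HasDerivAt (fun r : ℝ => ∫ ρ in (0 : ℝ)..r, G ρ) (G r) r := by
    intro r
    exact intervalIntegral.integral_hasDerivAt_right (hGc.intervalIntegrable _ _)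
      (hGc.stronglyMeasurableAtFilter _ _) hGc.continuousAt
  generalize hPdef : (fun r : ℝ => ∫ ρ in (0 : ℝ)..r, G ρ) = P at hPd
  have hPf : ∀ r, 0 ≤ r → r ≤ ℓ → P r = f r := by
    intro r h0 h1
    rw [← hPdef, hf r h0 h1]
    refine intervalIntegral.integral_congr (fun ρ hρ => ?_)
    rw [uIcc_of_le h0] at hρ
    exact hGe' ρ hρ.1 (hρ.2.trans h1)
  have hP0 : P 0 = 0 := by
    rw [← hPdef]
    exact intervalIntegral.integral_same
  have hDc : ContinuousOn (dslope P 0) univ := by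
    rw [continuousOn_dslope (Filter.univ_mem)]
    exact ⟨fun r _ => (hPd r).continuousAt.continuousWithinAt, (hPd 0).differentiableAt⟩
  have hDe : ∀ r, 0 < r → r ≤ ℓ → dslope P 0 r = f r / r := by
    intro r h0 h1
    rw [dslope_of_ne _ h0.ne', slope_def_field, hP0, hPf r h0.le h1, sub_zero, sub_zero]
  have hhc : ContinuousOn (fun r => g r - dslope P 0 r) (Icc 0 ℓ) :=
    hg.sub (hDc.mono (subset_univ _))
  obtain ⟨hL, hN⟩ := Pool.Agent.R3B.H27.nrm hB ℓ (fun r => g r - dslope P 0 r) hℓ hhc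
  have hnorm : ∀ x ∈ Bl ℓ, ‖rf (fun r => g r - dslope P 0 r) x‖ = ‖rg f g x‖ := by
    intro x hx
    have hx' : ‖x‖ < ℓ := hx
    unfold rf rg
    by_cases h0 : x = 0
    · rw [h0]
      simp
    · have hp : 0 < ‖x‖ := norm_pos_iff.mpr h0
      show ‖(g ‖x‖ - dslope P 0 ‖x‖) / ‖x‖‖ = _
      rw [hDe ‖x‖ hp hx'.le, norm_smul, norm_div, norm_div, norm_pow, norm_norm]
      field_simp
  have hrg : rg f g =ᵐ[vol (Bl ℓ)] fun x : E 3 =>
      (rf (fun r => g r - dslope P 0 r) x / ‖x‖) • x := by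
    have h1 : ∀ᵐ x ∂(vol (Bl ℓ)), x ∈ Bl ℓ :=
      ae_restrict_mem (Pool.Agent.R3B.H27.nrm_meas_Bl ℓ)
    filter_upwards [h1] with x hx
    have hx' : ‖x‖ < ℓ := hx
    unfold rf rg
    by_cases h0 : x = 0
    · rw [h0]
      simp
    · have hp : 0 < ‖x‖ := norm_pos_iff.mpr h0
      show _ = ((g ‖x‖ - dslope P 0 ‖x‖) / ‖x‖ / ‖x‖) • x
      rw [hDe ‖x‖ hp hx'.le, div_div, ← pow_two]
  have hmeas : AEStronglyMeasurable (rg f g) (vol (Bl ℓ)) := by
    refine AEStronglyMeasurable.congr ?_ hrg.symm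
    have h1 : AEMeasurable (rf (fun r => g r - dslope P 0 r)) (vol (Bl ℓ)) :=
      (Pool.Agent.R3B.H27.nrm_aem ℓ _ hhc).aemeasurable
    have h2 : AEStronglyMeasurable (fun x : E 3 => rf (fun r => g r - dslope P 0 r) x / ‖x‖)
        (vol (Bl ℓ)) := (h1.div measurable_norm.aemeasurable).aestronglyMeasurable
    exact h2.smul aestronglyMeasurable_id
  have hae : ∀ᵐ x ∂(vol (Bl ℓ)), ‖rf (fun r => g r - dslope P 0 r) x‖ = ‖rg f g x‖ := by
    have h1 : ∀ᵐ x ∂(vol (Bl ℓ)), x ∈ Bl ℓ :=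
      ae_restrict_mem (Pool.Agent.R3B.H27.nrm_meas_Bl ℓ)
    filter_upwards [h1] with x hx
    exact hnorm x hx
  refine ⟨MemLp.congr_norm hL hmeas hae, ?_⟩
  have h1 : nrmv (Bl ℓ) (rg f g) = nrm (Bl ℓ) (rf (fun r => g r - dslope P 0 r)) :=
    (eLpNorm_congr_norm_ae hae).symm
  rw [h1, hN]
  have h2 : ∫ r in (0 : ℝ)..ℓ, (g r - dslope P 0 r) ^ 2 = ∫ r in (0 : ℝ)..ℓ, (g r - f r / r) ^ 2 := by
    refine intervalIntegral.integral_congr_ae ?_
    refine Filter.Eventually.of_forall (fun r hr => ?_)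
    rw [uIoc_of_le hℓ.le] at hr
    rw [hDe r hr.1 hr.2]
  rw [h2]

end Pool.Agent.R3B.H95
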